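import Mathlib

set_option autoImplicit false

namespace Pool.Agent.Results.MP_e93574_an.FixedPoint

open Metric Filter Topology NNReal

universe u

/-- the class `Γ` of gauges -/
def IsGamma (γ : ℝ≥0 → ℝ≥0) : Prop :=
  Continuous γ ∧ Monotone γ ∧ (∀ s t, γ (s + t) ≤ γ s + γ t) ∧ γ ⁻¹' {0} = {0}

/-- the class `𝒜` -/
def IsClassA (θ : ℝ≥0 → ℝ≥0) : Prop :=
  ∃ ε₀ : ℝ≥0, 0 < ε₀ ∧ ∃ γ : ℝ≥0 → ℝ≥0, IsGamma γ ∧ ∀ t, θ t ≤ ε₀ → γ t ≤ θ t

/-- `T : X → CB(X)` -/
def MapsToCB {X : Type u} [MetricSpace X] (T : X → Set X) : Prop :=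
  ∀ x, (T x).Nonempty ∧ IsClosed (T x) ∧ Bornology.IsBounded (T x)

/-- `T` is weakly contractive with respect to `θ` -/
def WeaklyContractive {X : Type u} [MetricSpace X] (T : X → Set X) (θ : ℝ≥0 → ℝ≥0) : Prop :=
  ∀ x y, hausdorffDist (T x) (T y) ≤ dist x y - (θ (nndist x y) : ℝ)

variable {X : Type u} [MetricSpace X]

lemma theta_pos {θ : ℝ≥0 → ℝ≥0} (hθ : IsClassA θ) {t : ℝ≥0} (ht : 0 < t) : 0 < θ t := by
  obtain ⟨ε₀, hε, γ, ⟨-, -, -, hγ⟩, h⟩ := hθ
  by_contra hcon
  have h0 : θ t = 0 := by simpa using hcon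
  have h1 := h t (by rw [h0]; exact zero_le)
  rw [h0] at h1
  have h2 : γ t = 0 := le_antisymm h1 zero_le
  have h3 : t ∈ γ ⁻¹' {0} := h2
  rw [hγ] at h3
  exact ht.ne' h3

lemma edist_ne {T : X → Set X} (hT : MapsToCB T) (x y : X) : hausdorffEDist (T x) (T y) ≠ ⊤ :=
  hausdorffEDist_ne_top_of_nonempty_of_bounded (hT x).1 (hT y).1 (hT x).2.2 (hT y).2.2

theorem fixed [CompleteSpace X] [Nonempty X] (θ : ℝ≥0 → ℝ≥0) (hθ : IsClassA θ) (T : X → Set X)
    (hT : MapsToCB T) (hc : WeaklyContractive T θ) : ∃ x, x ∈ T x := by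
  by_contra hno
  push Not at hno
  have step : ∀ x y, y ∈ T x → ∃ z, z ∈ T y ∧ dist y z ≤ dist x y - (θ (nndist x y) : ℝ) / 2 := by
    intro x y hy
    have hxy : x ≠ y := by rintro rfl; exact hno x hy
    have hpos : 0 < θ (nndist x y) := theta_pos hθ (by rw [pos_iff_ne_zero]; simpa using hxy)
    have hpos' : (0:ℝ) < θ (nndist x y) := by exact_mod_cast hpos
    have h1 := hc x y
    obtain ⟨z, hz, hz'⟩ := exists_dist_lt_of_hausdorffDist_lt hy
      (r := dist x y - (θ (nndist x y) : ℝ) / 2) (by linarith) (edist_ne hT x y)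
    exact ⟨z, hz, hz'.le⟩
  choose! f hf1 hf2 using step
  obtain ⟨x0⟩ := ‹Nonempty X›
  obtain ⟨y0, hy0⟩ := (hT x0).1
  let s : ℕ → X × X := fun n => Nat.rec (x0, y0) (fun _ p => (p.2, f p.1 p.2)) n
  have hs : ∀ n, (s n).2 ∈ T (s n).1 := by
    intro n
    induction n with
    | zero => exact hy0
    | succ n ih => exact hf1 _ _ ih
  let x : ℕ → X := fun n => (s n).1
  have hx1 : ∀ n, x (n + 1) = (s n).2 := fun n => rfl
  have hmem : ∀ n, x (n + 1) ∈ T (x n) := hs
  have hdec : ∀ n, dist (x (n + 1)) (x (n + 2)) ≤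
      dist (x n) (x (n + 1)) - (θ (nndist (x n) (x (n + 1))) : ℝ) / 2 := fun n => hf2 _ _ (hs n)
  -- summability
  have hsum : ∀ n, ∑ k ∈ Finset.range n, (θ (nndist (x k) (x (k + 1))) : ℝ) ≤
      2 * dist (x 0) (x 1) - 2 * dist (x n) (x (n + 1)) := by
    intro n
    induction n with
    | zero => simp
    | succ n ih =>
      rw [Finset.sum_range_succ]
      have := hdec n
      linarith
  have hS : Summable (fun k => (θ (nndist (x k) (x (k + 1))) : ℝ)) := by
    apply summable_of_sum_range_le (c := 2 * dist (x 0) (x 1))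
    · intro n; exact NNReal.coe_nonneg _
    · intro n
      have h1 := hsum n
      have h2 : 0 ≤ dist (x n) (x (n + 1)) := dist_nonneg
      linarith
  obtain ⟨ε₀, hε₀, γ, ⟨-, hmono, hsub, hker⟩, hγθ⟩ := hθ
  have hγ0 : γ 0 = 0 := by
    have : (0 : ℝ≥0) ∈ γ ⁻¹' {0} := by rw [hker]; rfl
    exact this
  have hev : ∀ᶠ k in atTop, γ (nndist (x k) (x (k + 1))) ≤ θ (nndist (x k) (x (k + 1))) := by
    have h1 := hS.tendsto_atTop_zero
    have h2 := h1.eventually_lt_const (show (0:ℝ) < ε₀ by exact_mod_cast hε₀)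
    filter_upwards [h2] with k hk
    apply hγθ
    exact_mod_cast hk.le
  have hSγ : Summable (fun k => (γ (nndist (x k) (x (k + 1))) : ℝ)) := by
    apply Summable.of_norm_bounded_eventually_nat hS
    filter_upwards [hev] with k hk
    rw [Real.norm_of_nonneg (NNReal.coe_nonneg _)]
    exact_mod_cast hk
  have htri : ∀ N n, N ≤ n → γ (nndist (x N) (x n)) ≤
      ∑ k ∈ Finset.Ico N n, γ (nndist (x k) (x (k + 1))) := by
    intro N n hn
    induction n, hn using Nat.le_induction with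
    | base => simp [hγ0]
    | succ n hn ih =>
      rw [Finset.sum_Ico_succ_top hn]
      calc γ (nndist (x N) (x (n + 1)))
          ≤ γ (nndist (x N) (x n) + nndist (x n) (x (n + 1))) := hmono (nndist_triangle _ _ _)
        _ ≤ γ (nndist (x N) (x n)) + γ (nndist (x n) (x (n + 1))) := hsub _ _
        _ ≤ _ := by gcongr
  have hcau : CauchySeq x := by
    rw [Metric.cauchySeq_iff']
    intro ε hε
    set e : ℝ≥0 := ⟨ε, hε.le⟩ with he
    have he0 : e ≠ 0 := by
      intro h
      have := congrArg (fun r : ℝ≥0 => (r : ℝ)) h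
      simp only [he, NNReal.coe_zero] at this
      exact hε.ne' this
    have hγe : 0 < γ e := by
      rw [pos_iff_ne_zero]
      intro h
      have : e ∈ γ ⁻¹' {0} := h
      rw [hker] at this
      exact he0 this
    have hcs := hSγ.hasSum.tendsto_sum_nat.cauchySeq
    rw [Metric.cauchySeq_iff'] at hcs
    obtain ⟨N, hN⟩ := hcs (γ e : ℝ) (by exact_mod_cast hγe)
    refine ⟨N, fun n hn => ?_⟩
    have h1 := hN n hn
    rw [Real.dist_eq, ← Finset.sum_Ico_eq_sub _ hn] at h1
    have h2 := htri N n hn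
    have h3 : (γ (nndist (x N) (x n)) : ℝ) < γ e := by
      refine lt_of_le_of_lt ?_ (lt_of_abs_lt h1)
      have : (γ (nndist (x N) (x n)) : ℝ) ≤
          ((∑ k ∈ Finset.Ico N n, γ (nndist (x k) (x (k + 1))) : ℝ≥0) : ℝ) := by exact_mod_cast h2
      rwa [NNReal.coe_sum] at this
    have h4 : γ (nndist (x N) (x n)) < γ e := by exact_mod_cast h3
    have h5 : nndist (x N) (x n) < e := by
      by_contra hcon
      exact absurd (hmono (not_lt.1 hcon)) (not_le.2 h4)
    have h6 : (nndist (x N) (x n) : ℝ) < (e : ℝ) := by exact_mod_cast h5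
    rw [coe_nndist] at h6
    rw [dist_comm]
    exact h6
  obtain ⟨z, hz⟩ := cauchySeq_tendsto_of_complete hcau
  apply hno z
  have hcl := (hT z).2.1
  have hne := (hT z).1
  rw [hcl.mem_iff_infDist_zero hne]
  apply le_antisymm _ infDist_nonneg
  have hbound : ∀ n, infDist z (T z) ≤ dist z (x (n + 1)) + dist (x n) z := by
    intro n
    have h1 : infDist (x (n + 1)) (T z) ≤ hausdorffDist (T (x n)) (T z) :=
      infDist_le_hausdorffDist_of_mem (hmem n) (edist_ne hT _ _)
    have h2 : hausdorffDist (T (x n)) (T z) ≤ dist (x n) z := by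
      have h3 := hc (x n) z
      have h4 : (0:ℝ) ≤ θ (nndist (x n) z) := NNReal.coe_nonneg _
      linarith
    have h5 : infDist z (T z) ≤ infDist (x (n + 1)) (T z) + dist z (x (n + 1)) :=
      infDist_le_infDist_add_dist
    linarith
  have hlim : Tendsto (fun n => dist z (x (n + 1)) + dist (x n) z) atTop (𝓝 0) := by
    have h1 : Tendsto (fun n => dist z (x (n + 1))) atTop (𝓝 0) := by
      have := (tendsto_const_nhds (x := z)).dist (hz.comp (tendsto_add_atTop_nat 1))
      simpa using this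
    have h2 : Tendsto (fun n => dist (x n) z) atTop (𝓝 0) := by
      have := hz.dist (tendsto_const_nhds (x := z))
      simpa using this
    simpa using h1.add h2
  exact ge_of_tendsto' hlim hbound

/-- Every weakly contractive set-valued map with closed bounded nonempty values on a nonempty
complete metric space has a fixed point. -/
theorem result : ∀ (X : Type u) [MetricSpace X] [CompleteSpace X] [Nonempty X]
    (θ : ℝ≥0 → ℝ≥0), IsClassA θ →
    ∀ T : X → Set X, MapsToCB T → WeaklyContractive T θ → ∃ x, x ∈ T x := by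
  intro X _ _ _ θ hθ T hT hc
  exact fixed θ hθ T hT hc

end Pool.Agent.Results.MP_e93574_an.FixedPoint
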